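import Pool.Agent.Helper5.LCU.Stmts

set_option autoImplicit false

open Finset Pool.Agent.Helper89.UB

namespace Pool.Agent.Helper5.LCU

theorem gd_sq (hL : ST_LNS) {n : ℕ} (E : Finset (Finset (Fin n))) (S : Finset (Fin n)) (w j : ℕ) :
    sq E S w j = (j.factorial : ℝ) * (pn E S (w + j) : ℝ) := by
  unfold sq
  have h := hL n E S (w + j)
  have h2 : (sur E S (w + j) : ℝ) = (pn E S (w + j) : ℝ) * ((w + j).factorial : ℝ) := by
    rw [← h]; push_cast; ring
  have h3 : ((w + j).factorial : ℝ) ≠ 0 := by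
    exact_mod_cast Nat.factorial_ne_zero _
  rw [h2]
  field_simp

theorem st_GD (hL : ST_LNS) : ST_GD := by
  intro n E S
  unfold Good
  constructor
  · rintro ⟨w, h1, h2, h3⟩
    refine ⟨w, h1, h2, ?_, ?_⟩
    · intro i
      rw [gd_sq hL]
      positivity
    · intro i j hij
      rw [gd_sq hL, gd_sq hL, gd_sq hL, gd_sq hL]
      exact_mod_cast h3 i j hij
  · rintro ⟨w, h1, h2, _, h4⟩
    refine ⟨w, h1, h2, ?_⟩
    intro i j hij
    have h := h4 i j hij
    rw [gd_sq hL, gd_sq hL, gd_sq hL, gd_sq hL] at h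
    exact_mod_cast h

end Pool.Agent.Helper5.LCU
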