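import Pool.Agent.Helper5.LCU.Stmts

set_option autoImplicit false

open Finset

namespace Pool.Agent.Helper5.LCU

theorem st_REV (hM : ST_MAJ) : ST_REV := by
  intro b hb N
  refine ⟨?_, ?_⟩
  · intro i
    dsimp only
    split_ifs
    · exact hb.1 _
    · exact le_rfl
  · intro i j hij
    dsimp only
    by_cases h : j + 2 ≤ N
    · have h1 : i ≤ N := by omega
      have h2 : i + 1 ≤ N := by omega
      have h3 : j + 1 ≤ N := by omega
      rw [if_pos h1, if_pos h, if_pos h2, if_pos h3]
      have := hM b hb (N - (j + 2)) (N - i) (N - (j + 1)) (N - (i + 1)) (by omega) (by omega)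
        (by omega)
      nlinarith [this]
    · rw [if_neg h, mul_zero]
      refine mul_nonneg ?_ ?_
      · split_ifs
        · exact hb.1 _
        · exact le_rfl
      · split_ifs
        · exact hb.1 _
        · exact le_rfl

end Pool.Agent.Helper5.LCU
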