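import Pool.Agent.Helper5.LCU.Stmts
import Pool.Agent.Helper14.UB.SURC
import Pool.Agent.Helper97.UB.BIN

set_option autoImplicit false

open Finset Pool.Agent.Helper89.UB

namespace Pool.Agent.Helper5.LCU

theorem tp_sur0 {n k : ℕ} (E : Finset (Finset (Fin n))) (W : Finset (Fin n)) (hk : W.card < k) :
    sur E W k = 0 := by
  classical
  unfold sur
  rw [Finset.card_eq_zero, Finset.eq_empty_iff_forall_notMem]
  intro c hc
  unfold OP at hc
  rw [Finset.mem_filter] at hc
  obtain ⟨_, h1, h2, h5, _⟩ := hc
  choose f hf using h1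
  have hinj : Function.Injective f := by
    intro i j hij
    by_contra hne
    have h3 := h2 i j hne
    exact (Finset.disjoint_left.1 h3 (hf i)) (hij ▸ hf j)
  have hsub : (Finset.univ.image f) ⊆ W := by
    intro v hv
    rw [Finset.mem_image] at hv
    obtain ⟨i, _, rfl⟩ := hv
    exact (h5 _).2 ⟨i, hf i⟩
  have h4 := Finset.card_le_card hsub
  rw [Finset.card_image_of_injective _ hinj, Finset.card_univ, Fintype.card_fin] at h4
  omega

theorem st_TP : ST_TP := by
  intro n E h0 q W
  have hB := st_BIN n E h0 q W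
  rw [hB]
  unfold TT
  push_cast
  have e1 : ∀ m, ((pw (fp E) m W : ℤ) : ℝ) = (sur E W m : ℝ) := by
    intro m
    rw [← st_SURC n E m W]
    push_cast
    rfl
  simp_rw [e1]
  have A : ∑ m ∈ range (W.card + 1), (q.choose m : ℝ) * (sur E W m : ℝ)
      = ∑ m ∈ range (W.card + q + 1), (q.choose m : ℝ) * (sur E W m : ℝ) := by
    apply Finset.sum_subset
    · intro x hx
      rw [mem_range] at hx ⊢
      omega
    · intro x _ hx
      rw [mem_range, not_lt] at hx
      rw [tp_sur0 E W (by omega)]
      simp
  have B : ∑ m ∈ range (q + 1), (q.choose m : ℝ) * (sur E W m : ℝ)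
      = ∑ m ∈ range (W.card + q + 1), (q.choose m : ℝ) * (sur E W m : ℝ) := by
    apply Finset.sum_subset
    · intro x hx
      rw [mem_range] at hx ⊢
      omega
    · intro x _ hx
      rw [mem_range, not_lt] at hx
      rw [Nat.choose_eq_zero_of_lt (by omega)]
      simp
  rw [A, B]

end Pool.Agent.Helper5.LCU
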